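import Mathlib
import Pool.Agent.W707.HM.Stm

/-! Project HM (helper707): the quadratic lower bound (helper701). -/

set_option autoImplicit false

namespace Pool.Agent.W701.HM

open MeasureTheory Set Filter Topology
open Pool.Agent.W707.HM

/-- mean value inequality at `0` -/
theorem mvt (g g' : ℝ → ℝ) (r B : ℝ) (h0 : g 0 = 0) (hd : ∀ x, |x| ≤ r → HasDerivAt g (g' x) x)
    (hB : ∀ x, |x| ≤ r → |g' x| ≤ B) (y : ℝ) (hy : |y| ≤ r) : |g y| ≤ B * |y| := by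
  have hr : 0 ≤ r := (abs_nonneg y).trans hy
  have h := Convex.norm_image_sub_le_of_norm_hasDerivWithin_le (f := g) (f' := g') (s := Icc (-r) r)
    (C := B) (x := 0) (y := y) (fun x hx => (hd x (abs_le.mpr hx)).hasDerivWithinAt)
    (fun x hx => hB x (abs_le.mpr hx)) (convex_Icc _ _) ⟨by linarith, hr⟩ (abs_le.mp hy)
  rw [h0, sub_zero, sub_zero] at h
  exact h

theorem hasDeriv_rpow (q x : ℝ) (hx : |x| ≤ 1 / 2) :
    HasDerivAt (fun x : ℝ => (1 + x) ^ q) (q * (1 + x) ^ (q - 1)) x := by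
  have h1 : 0 < 1 + x := by have := (abs_le.mp hx).1; linarith
  have h2 : HasDerivAt (fun x : ℝ => 1 + x) 1 x := (hasDerivAt_id x).const_add 1
  have h3 := h2.rpow_const (p := q) (Or.inl h1.ne')
  exact h3.congr_deriv (by ring)

theorem T0 (q : ℝ) : ∃ c : ℝ, 0 ≤ c ∧ ∀ x : ℝ, |x| ≤ 1 / 2 → |(1 + x) ^ q| ≤ c := by
  have hc : ContinuousOn (fun x : ℝ => (1 + x) ^ q) (Icc (-(1 / 2)) (1 / 2)) := fun x hx =>
    (hasDeriv_rpow q x (abs_le.mpr hx)).continuousAt.continuousWithinAt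
  obtain ⟨c, hc⟩ := isCompact_Icc.exists_bound_of_continuousOn hc
  refine ⟨c, (norm_nonneg _).trans (hc 0 ⟨by norm_num, by norm_num⟩), fun x hx => hc x (abs_le.mp hx)⟩

theorem T1 (q : ℝ) : ∃ c : ℝ, 0 ≤ c ∧ ∀ x : ℝ, |x| ≤ 1 / 2 → |(1 + x) ^ q - 1| ≤ c * |x| := by
  obtain ⟨c, hc0, hc⟩ := T0 (q - 1)
  refine ⟨|q| * c, by positivity, fun x hx => ?_⟩
  refine mvt (fun x => (1 + x) ^ q - 1) (fun x => q * (1 + x) ^ (q - 1)) (1 / 2) _ (by simp)
    (fun x hx => (hasDeriv_rpow q x hx).sub_const 1) (fun x hx => ?_) x hx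
  rw [abs_mul]
  exact mul_le_mul_of_nonneg_left (hc x hx) (abs_nonneg q)

theorem T2 (q : ℝ) : ∃ c : ℝ, 0 ≤ c ∧ ∀ x : ℝ, |x| ≤ 1 / 2 → |(1 + x) ^ q - 1 - q * x| ≤ c * |x| ^ 2 := by
  obtain ⟨c, hc0, hc⟩ := T1 (q - 1)
  refine ⟨|q| * c, by positivity, fun x hx => ?_⟩
  have h := mvt (fun x => (1 + x) ^ q - 1 - q * x) (fun x => q * ((1 + x) ^ (q - 1) - 1)) |x|
    (|q| * c * |x|) (by simp)
    (fun z hz => by
      have h1 : HasDerivAt (fun x : ℝ => q * x) q z := by simpa using (hasDerivAt_id z).const_mul q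
      exact (((hasDeriv_rpow q z (hz.trans hx)).sub_const 1).sub h1).congr_deriv (by ring))
    (fun z hz => by
      rw [abs_mul, mul_assoc]
      refine mul_le_mul_of_nonneg_left ((hc z (hz.trans hx)).trans ?_) (abs_nonneg q)
      gcongr) x le_rfl
  refine h.trans (le_of_eq ?_)
  ring

theorem T3 (q : ℝ) : ∃ c : ℝ, 0 ≤ c ∧ ∀ x : ℝ, |x| ≤ 1 / 2 →
    |(1 + x) ^ q - 1 - q * x - q * (q - 1) / 2 * x ^ 2| ≤ c * |x| ^ 3 := by
  obtain ⟨c, hc0, hc⟩ := T2 (q - 1)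
  refine ⟨|q| * c, by positivity, fun x hx => ?_⟩
  have h := mvt (fun x => (1 + x) ^ q - 1 - q * x - q * (q - 1) / 2 * x ^ 2)
    (fun x => q * ((1 + x) ^ (q - 1) - 1 - (q - 1) * x)) |x|
    (|q| * c * |x| ^ 2) (by simp)
    (fun z hz => by
      have h1 : HasDerivAt (fun x : ℝ => q * x) q z := by simpa using (hasDerivAt_id z).const_mul q
      have h2 : HasDerivAt (fun x : ℝ => q * (q - 1) / 2 * x ^ 2) (q * (q - 1) / 2 * (2 * z)) z := by
        simpa using (hasDerivAt_pow 2 z).const_mul (q * (q - 1) / 2)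
      exact ((((hasDeriv_rpow q z (hz.trans hx)).sub_const 1).sub h1).sub h2).congr_deriv (by ring))
    (fun z hz => by
      rw [abs_mul, mul_assoc]
      refine mul_le_mul_of_nonneg_left ((hc z (hz.trans hx)).trans ?_) (abs_nonneg q)
      gcongr) x le_rfl
  refine h.trans (le_of_eq ?_)
  ring

theorem main : S_QLB := by
  intro p f hp hHI K M η hK hη
  obtain ⟨c1, hc1, hT1⟩ := T1 (-p)
  obtain ⟨c2, hc2, hT2⟩ := T2 p
  obtain ⟨c3, hc3, hT3⟩ := T3 p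
  obtain ⟨N, hN⟩ : ∃ N, N = (p + 2) * M / η := ⟨_, rfl⟩
  obtain ⟨DD, hDD⟩ : ∃ DD, DD = (3 * p + 2) * M / η := ⟨_, rfl⟩
  obtain ⟨QQ, hQQ⟩ : ∃ QQ, QQ = (p - 1) * ((p + 2) * M) + 2 * DD := ⟨_, rfl⟩
  obtain ⟨XX, hXX⟩ : ∃ XX, XX = DD * K + K ^ 2 * QQ / 2 := ⟨_, rfl⟩
  obtain ⟨C1, hC1⟩ : ∃ C1, C1 = M * (c3 * K ^ 3) + M * (c2 * K ^ 2) + N * K ^ 2 := ⟨_, rfl⟩
  refine ⟨c1 * K * XX + (1 + c1) * C1, min (1 / 2) η / (K + 1), by positivity, ?_⟩
  intro t m hSG htη hm hft u hu huη hd h1uK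
  have hM : 0 ≤ M := (abs_nonneg m).trans hm
  have ht := hSG.1
  have ht1 : t < 1 := by linarith
  obtain ⟨δ, hδ⟩ : ∃ δ, δ = u - t := ⟨_, rfl⟩
  obtain ⟨ε, hε⟩ : ∃ ε, ε = K * δ := ⟨_, rfl⟩
  rw [← hδ] at hd ⊢
  have hεab : |ε| ≤ min (1 / 2) η := by
    rw [hε, abs_mul, abs_of_nonneg hK]
    calc K * |δ| ≤ K * (min (1 / 2) η / (K + 1)) := by gcongr
      _ = (K / (K + 1)) * min (1 / 2) η := by ring
      _ ≤ 1 * min (1 / 2) η := by
          have hmin : 0 ≤ min (1 / 2) η := by positivity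
          have : K / (K + 1) ≤ 1 := by
            rw [div_le_one (by positivity)]; linarith
          gcongr
      _ = min (1 / 2) η := one_mul _
  have hε1 : |ε| ≤ 1 / 2 := hεab.trans (min_le_left _ _)
  have hε2 : |ε| ≤ η := hεab.trans (min_le_right _ _)
  have hεlo := (abs_le.mp hε1).1
  have hεlo2 := (abs_le.mp hε2).1
  have hεhi2 := (abs_le.mp hε2).2
  have hs0 : 0 < 1 + ε := by linarith
  have hut : u = t + δ := by rw [hδ]; ring
  -- the inequality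
  have hvs : |u * (1 + ε)| ≤ 1 + ε := by
    rw [abs_mul, abs_of_pos hs0]
    have : |u| ≤ 1 := abs_le.mpr hu
    calc |u| * (1 + ε) ≤ 1 * (1 + ε) := by gcongr
      _ = 1 + ε := one_mul _
  have hprod : 0 ≤ (1 + ε - 1) * (u * (1 + ε) - t) := by
    have e : (1 + ε - 1) * (u * (1 + ε) - t) = K * δ ^ 2 * (1 + u * K) := by
      rw [hε, hut]; ring
    rw [e]; positivity
  have hv1 : u * (1 + ε) ≤ 1 := by
    rcases le_or_gt u 0 with h | h
    · have : u * (1 + ε) ≤ 0 := mul_nonpos_of_nonpos_of_nonneg h hs0.le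
      linarith
    · calc u * (1 + ε) ≤ (1 - η) * (1 + η) := by
            have : 0 ≤ 1 - η := by linarith
            gcongr
        _ ≤ 1 := by nlinarith
  have key := hHI t m ht1 hSG (1 + ε) (u * (1 + ε)) hs0 hvs hprod (by linarith) hv1
  rw [mul_div_cancel_right₀ u hs0.ne'] at key
  obtain ⟨n1, hn1⟩ : ∃ n1, n1 = (p * f t - (1 + t) * m) / (1 - t) := ⟨_, rfl⟩
  obtain ⟨D, hD⟩ : ∃ D, D = Dt p f t m := ⟨_, rfl⟩
  have h1t : 0 < 1 - t := by linarith
  have hDn : D = -((p - 1) * m + n1) := by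
    rw [hD, hn1]
    unfold Dt
    field_simp
    ring
  have hQn : Qt p f t m = (p - 1) * (p * f t - 2 * t * m) - 2 * D * t := by
    rw [hD]; rfl
  rw [← hn1] at key
  obtain ⟨S, hS⟩ : ∃ S, S = (1 + ε) ^ p := ⟨_, rfl⟩
  rw [← hS] at key
  obtain ⟨X, hX⟩ : ∃ X, X = D * K - K ^ 2 * Qt p f t m / 2 := ⟨_, rfl⟩
  obtain ⟨r2, hr2⟩ : ∃ r2, r2 = S - 1 - p * ε := ⟨_, rfl⟩
  obtain ⟨r3, hr3⟩ : ∃ r3, r3 = S - 1 - p * ε - p * (p - 1) / 2 * ε ^ 2 := ⟨_, rfl⟩
  have b2 : |r2| ≤ c2 * K ^ 2 * |δ| ^ 2 := by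
    have := hT2 ε hε1
    rw [← hS, ← hr2] at this
    refine this.trans (le_of_eq ?_)
    rw [hε, abs_mul, abs_of_nonneg hK]; ring
  have b3 : |r3| ≤ c3 * K ^ 3 * |δ| ^ 3 := by
    have := hT3 ε hε1
    rw [← hS, ← hr3] at this
    refine this.trans (le_of_eq ?_)
    rw [hε, abs_mul, abs_of_nonneg hK]; ring
  have hSE : X * δ ^ 2 - (f t * r3 + m * δ * r2 + n1 * δ * ε ^ 2) ≤ S * (f u - f t - m * δ) := by
    have e : X * δ ^ 2 - (f t * r3 + m * δ * r2 + n1 * δ * ε ^ 2)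
        = f t + (p * f t - t * m) * (1 + ε - 1) + m * (u * (1 + ε) - t) -
          n1 * ((1 + ε - 1) * (u * (1 + ε) - t)) - S * (f t + m * δ) := by
      rw [hX, hQn, hDn, hr2, hr3, hut, hε]
      ring
    rw [e]
    linarith
  have hNb : |n1| ≤ N := by
    rw [hn1, hN, abs_div, abs_of_pos h1t]
    have h1 : |p * f t - (1 + t) * m| ≤ (p + 2) * M := by
      have a1 : |p * f t| ≤ p * M := by rw [abs_mul, abs_of_pos (by linarith : 0 < p)]; gcongr
      have a2 : |(1 + t) * m| ≤ 2 * M := by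
        rw [abs_mul, abs_of_nonneg (by linarith [ht.1] : 0 ≤ 1 + t)]
        have : 1 + t ≤ 2 := by linarith
        have := ht.1
        gcongr
      calc |p * f t - (1 + t) * m| ≤ |p * f t| + |(1 + t) * m| := abs_sub _ _
        _ ≤ (p + 2) * M := by linarith
    have h2 : η ≤ 1 - t := by linarith
    have h3 : 0 ≤ (p + 2) * M := by positivity
    gcongr
  have hDb : |D| ≤ DD := by
    rw [hD, hDD]
    unfold Dt
    rw [abs_div, abs_of_pos h1t]
    have hta : |t| ≤ 1 := abs_le.mpr ht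
    have h1 : |p * (m * t - f t) - (p - 2) * m| ≤ (3 * p + 2) * M := by
      have a1 : |p * (m * t - f t)| ≤ p * (M + M) := by
        rw [abs_mul, abs_of_pos (by linarith : 0 < p)]
        have : |m * t - f t| ≤ M + M := by
          calc |m * t - f t| ≤ |m * t| + |f t| := abs_sub _ _
            _ ≤ M + M := by
                rw [abs_mul]
                have : |m| * |t| ≤ M * 1 := by gcongr
                linarith
        gcongr
      have a2 : |(p - 2) * m| ≤ (p + 2) * M := by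
        rw [abs_mul]
        have : |p - 2| ≤ p + 2 := by rw [abs_le]; constructor <;> linarith
        gcongr
      calc |p * (m * t - f t) - (p - 2) * m| ≤ |p * (m * t - f t)| + |(p - 2) * m| := abs_sub _ _
        _ ≤ (3 * p + 2) * M := by linarith
    have h2 : η ≤ 1 - t := by linarith
    have h3 : 0 ≤ (3 * p + 2) * M := by positivity
    gcongr
  have hQb : |Qt p f t m| ≤ QQ := by
    rw [hQn, hQQ]
    have hta : |t| ≤ 1 := abs_le.mpr ht
    have a1 : |(p - 1) * (p * f t - 2 * t * m)| ≤ (p - 1) * ((p + 2) * M) := by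
      rw [abs_mul, abs_of_nonneg (by linarith : 0 ≤ p - 1)]
      have b1 : |p * f t - 2 * t * m| ≤ (p + 2) * M := by
        have a1 : |p * f t| ≤ p * M := by rw [abs_mul, abs_of_pos (by linarith : 0 < p)]; gcongr
        have a2 : |2 * t * m| ≤ 2 * M := by
          rw [abs_mul, abs_mul, abs_of_pos (by norm_num : (0 : ℝ) < 2)]
          calc 2 * |t| * |m| ≤ 2 * 1 * M := by gcongr
            _ = 2 * M := by ring
        calc |p * f t - 2 * t * m| ≤ |p * f t| + |2 * t * m| := abs_sub _ _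
          _ ≤ (p + 2) * M := by linarith
      have : 0 ≤ p - 1 := by linarith
      gcongr
    have a2 : |2 * D * t| ≤ 2 * DD := by
      rw [abs_mul, abs_mul, abs_of_pos (by norm_num : (0 : ℝ) < 2)]
      have hDD0 : 0 ≤ DD := (abs_nonneg D).trans hDb
      calc 2 * |D| * |t| ≤ 2 * DD * 1 := by gcongr
        _ = 2 * DD := by ring
    calc |(p - 1) * (p * f t - 2 * t * m) - 2 * D * t|
        ≤ |(p - 1) * (p * f t - 2 * t * m)| + |2 * D * t| := abs_sub _ _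
      _ ≤ _ := by linarith
  have hXb : |X| ≤ XX := by
    rw [hX, hXX]
    have a1 : |D * K| ≤ DD * K := by rw [abs_mul, abs_of_nonneg hK]; gcongr
    have a2 : |K ^ 2 * Qt p f t m / 2| ≤ K ^ 2 * QQ / 2 := by
      rw [abs_div, abs_mul, abs_of_nonneg (by positivity : 0 ≤ K ^ 2), abs_of_pos (by norm_num : (0 : ℝ) < 2)]
      gcongr
    exact (abs_sub _ _).trans (add_le_add a1 a2)
  have herr : |f t * r3 + m * δ * r2 + n1 * δ * ε ^ 2| ≤ C1 * |δ| ^ 3 := by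
    have a1 : |f t * r3| ≤ M * (c3 * K ^ 3) * |δ| ^ 3 := by
      rw [abs_mul]
      calc |f t| * |r3| ≤ M * (c3 * K ^ 3 * |δ| ^ 3) := by gcongr
        _ = _ := by ring
    have a2 : |m * δ * r2| ≤ M * (c2 * K ^ 2) * |δ| ^ 3 := by
      rw [abs_mul, abs_mul]
      calc |m| * |δ| * |r2| ≤ M * |δ| * (c2 * K ^ 2 * |δ| ^ 2) := by gcongr
        _ = _ := by ring
    have a3 : |n1 * δ * ε ^ 2| ≤ N * K ^ 2 * |δ| ^ 3 := by
      rw [abs_mul, abs_mul, abs_pow, hε, abs_mul, abs_of_nonneg hK]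
      calc |n1| * |δ| * (K * |δ|) ^ 2 ≤ N * |δ| * (K * |δ|) ^ 2 := by gcongr
        _ = _ := by ring
    calc |f t * r3 + m * δ * r2 + n1 * δ * ε ^ 2| ≤ |f t * r3| + |m * δ * r2| + |n1 * δ * ε ^ 2| :=
          abs_add_three _ _ _
      _ ≤ C1 * |δ| ^ 3 := by rw [hC1]; linarith
  -- division by `S`
  obtain ⟨σ, hσ⟩ : ∃ σ, σ = (1 + ε) ^ (-p) := ⟨_, rfl⟩
  have hσ0 : 0 < σ := by rw [hσ]; positivity
  have hσS : σ * S = 1 := by
    rw [hσ, hS, ← Real.rpow_add hs0, neg_add_cancel, Real.rpow_zero]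
  have hσ1 : |σ - 1| ≤ c1 * |ε| := by rw [hσ]; exact hT1 ε hε1
  have hεδ : |ε| = K * |δ| := by rw [hε, abs_mul, abs_of_nonneg hK]
  have hC10 : 0 ≤ C1 := by
    have hN0 : 0 ≤ N := (abs_nonneg _).trans hNb
    rw [hC1]; positivity
  have hXX0 : 0 ≤ XX := (abs_nonneg _).trans hXb
  have hσle : σ ≤ 1 + c1 := by
    have h1 := (abs_le.mp hσ1).2
    have h2 : c1 * |ε| ≤ c1 * 1 := by gcongr; linarith
    linarith
  have hfin : X * δ ^ 2 - (c1 * K * XX + (1 + c1) * C1) * |δ| ^ 3 ≤ f u - f t - m * δ := by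
    have g1 : f u - f t - m * δ = σ * (S * (f u - f t - m * δ)) := by
      rw [← mul_assoc, hσS, one_mul]
    have g2 : X * δ ^ 2 - C1 * |δ| ^ 3 ≤ S * (f u - f t - m * δ) := by
      have := (abs_le.mp herr).2
      linarith
    have g3 : σ * (X * δ ^ 2 - C1 * |δ| ^ 3) ≤ f u - f t - m * δ := by
      rw [g1]; gcongr
    have g4 : σ * (X * δ ^ 2 - C1 * |δ| ^ 3) = X * δ ^ 2 + (σ - 1) * X * δ ^ 2 - σ * (C1 * |δ| ^ 3) := by ring
    have g5 : -(c1 * K * XX * |δ| ^ 3) ≤ (σ - 1) * X * δ ^ 2 := by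
      have h1 : |(σ - 1) * X * δ ^ 2| ≤ c1 * K * XX * |δ| ^ 3 := by
        rw [abs_mul, abs_mul, abs_pow]
        calc |σ - 1| * |X| * |δ| ^ 2 ≤ (c1 * (K * |δ|)) * XX * |δ| ^ 2 := by
              rw [hεδ] at hσ1
              gcongr
          _ = _ := by ring
      exact (abs_le.mp h1).1
    have g6 : σ * (C1 * |δ| ^ 3) ≤ (1 + c1) * (C1 * |δ| ^ 3) := by gcongr
    linarith
  have : (Dt p f t m * K - K ^ 2 * Qt p f t m / 2) = X := by rw [hX, hD]
  rw [this]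
  exact hfin

end Pool.Agent.W701.HM
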